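import Mathlib
import Pool.Agent.H568R2.Rand.FO2

/-!
Keisler randomization does not preserve `λ`-stability.

`T` is the theory of countably many independent unary predicates `P_0, P_1, …`. It is `λ`-stable
for all `λ ≥ 2^ℵ₀`. If `λ < λ^ℵ₀`, take the typical model over `{0,1}^λ` with the product measure
and parameters `f_i` (`i < λ`) such that the events `⟦P_0(f_i)⟧` are independent of probability
`1/2`. For each `s : ℕ → λ` there is a type over the parameters of an element `x` with
`⟦P_j(x)⟧ = ⟦P_0(f_{s(j)})⟧` for all `j` (it is realized in an ultrapower), and two different such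
types are at distance at least `1/2`; so the type space has density character at least
`λ^ℵ₀ > λ`.
-/

namespace Pool.Agent.Results.MP_eefa83_lc.RandomizationNotLambdaStable

open Cardinal Pool.Agent.H568R2.Rand

/-- There is a complete theory `T` in a countable language such that for some infinite `lam` (and
indeed for every `lam` with `2^ℵ₀ ≤ lam < lam^ℵ₀`), `T` is `lam`-stable while its randomization
`T^R` is not `lam`-stable. -/
theorem result : ∃ (L : FirstOrder.Language.{0, 0}) (T : L.Theory), L.card ≤ ℵ₀ ∧ T.IsComplete ∧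
    (∃ lam : Cardinal.{0}, ℵ₀ ≤ lam ∧ FOStable T lam ∧ ¬ CStable (TR T) lam) ∧
    (∀ lam : Cardinal.{0}, 2 ^ ℵ₀ ≤ lam → lam < lam ^ ℵ₀ →
      FOStable T lam ∧ ¬ CStable (TR T) lam) := by
  have h : ∀ lam : Cardinal.{0}, 2 ^ ℵ₀ ≤ lam → lam < lam ^ ℵ₀ →
      FOStable T0 lam ∧ ¬ CStable (TR T0) lam := fun lam h1 h2 =>
    ⟨FOStable_T0 h1, not_CStable M0_model ((cantor ℵ₀).le.trans h1) h2⟩
  refine ⟨LP, T0, ?_, T0_complete, ?_, h⟩
  · have h1 : Countable (Σ l, LP.Functions l) := by
      have : IsEmpty (Σ l, LP.Functions l) := ⟨fun x => Empty.elim x.2⟩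
      infer_instance
    have h2 : Countable (Σ l, LP.Relations l) := by
      have : Function.Surjective (fun j : ℕ => (⟨1, PRel.P j⟩ : Σ l, LP.Relations l)) := by
        rintro ⟨l, r⟩
        cases r with
        | P j => exact ⟨j, rfl⟩
      exact this.countable
    have h3 : Countable LP.Symbols := by
      unfold FirstOrder.Language.Symbols
      infer_instance
    exact mk_le_aleph0_iff.mpr h3
  · obtain ⟨lam, h1, h2⟩ := exists_lam
    exact ⟨lam, (cantor ℵ₀).le.trans h1, h lam h1 h2⟩

end Pool.Agent.Results.MP_eefa83_lc.RandomizationNotLambdaStable
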